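import Mathlib

/-!
# MP_3684f0_an : simultaneous strong exposedness of metric projections

For every real inner product space `H` and every finite family of nonempty compact sets `C i`
(in particular for two compact convex sets of a Hilbert space) there is one point `x` such that,
for every `i`, the point of `C i` nearest to `x` exists, is unique, and is strongly exposed in
`C i` by the normal vector `x - p i`.
-/

open Filter Topology
open scoped RealInnerProductSpace

namespace Pool.Agent.Results.MP_3684f0_an.CommonPoint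

variable {H : Type*} [NormedAddCommGroup H] [InnerProductSpace ℝ H]

/-- `p` is the metric projection of `x` onto `C`: the unique nearest point. -/
def IsProj (C : Set H) (x p : H) : Prop :=
  p ∈ C ∧ ∀ y ∈ C, y ≠ p → ‖x - p‖ < ‖x - y‖

/-- `p` is strongly exposed in `C` by the continuous linear functional `f`. -/
def StronglyExposed (C : Set H) (p : H) (f : H →L[ℝ] ℝ) : Prop :=
  f p = sSup (f '' C) ∧
    ∀ y : ℕ → H, (∀ k, y k ∈ C) → Tendsto (fun k => f (y k)) atTop (𝓝 (sSup (f '' C))) →
      Tendsto y atTop (𝓝 p)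

/-- The key inequality gives both the projection and the strong exposedness. -/
lemma key {C : Set H} {x p : H} (hp : p ∈ C)
    (h : ∀ z ∈ C, ⟪x - p, z - p⟫ ≤ -(1/2) * ‖z - p‖ ^ 2) :
    IsProj C x p ∧ StronglyExposed C p (innerSL ℝ (x - p)) := by
  refine ⟨⟨hp, ?_⟩, ?_⟩
  · intro z hz hne
    have h1 := h z hz
    have hpos : 0 < ‖z - p‖ ^ 2 := by
      have : 0 < ‖z - p‖ := norm_pos_iff.2 (sub_ne_zero.2 hne)
      positivity
    have h2 : ‖x - z‖ ^ 2 = ‖x - p‖ ^ 2 - 2 * ⟪x - p, z - p⟫ + ‖z - p‖ ^ 2 := by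
      have : x - z = (x - p) - (z - p) := by abel
      rw [this, norm_sub_sq_real]
    have h3 : ‖x - p‖ ^ 2 < ‖x - z‖ ^ 2 := by nlinarith
    exact lt_of_pow_lt_pow_left₀ 2 (norm_nonneg _) h3
  · have hle : ∀ z ∈ C, (innerSL ℝ (x - p)) z + (1/2) * ‖z - p‖ ^ 2 ≤ (innerSL ℝ (x - p)) p := by
      intro z hz
      have h1 := h z hz
      simp only [innerSL_apply_apply]
      rw [inner_sub_right] at h1
      linarith
    have hgr : IsGreatest ((innerSL ℝ (x - p)) '' C) ((innerSL ℝ (x - p)) p) := by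
      refine ⟨⟨p, hp, rfl⟩, ?_⟩
      rintro _ ⟨z, hz, rfl⟩
      have := hle z hz
      have h0 : 0 ≤ ‖z - p‖ ^ 2 := by positivity
      linarith
    have hs : sSup ((innerSL ℝ (x - p)) '' C) = (innerSL ℝ (x - p)) p := hgr.csSup_eq
    refine ⟨hs.symm, ?_⟩
    intro y hy hlim
    rw [hs] at hlim
    rw [tendsto_iff_norm_sub_tendsto_zero]
    have h0 : Tendsto (fun k => 2 * ((innerSL ℝ (x - p)) p - (innerSL ℝ (x - p)) (y k)))
        atTop (𝓝 0) := by
      have := (tendsto_const_nhds (x := (innerSL ℝ (x - p)) p)).sub hlim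
      simpa using this.const_mul 2
    have h1 : Tendsto (fun k => ‖y k - p‖ ^ 2) atTop (𝓝 0) := by
      refine squeeze_zero (fun k => by positivity) (fun k => ?_) h0
      have := hle (y k) (hy k)
      linarith
    have h2 := h1.sqrt
    simpa [Real.sqrt_sq (norm_nonneg _)] using h2

/-- Main theorem: for every finite family of nonempty compact subsets of a real inner product
space there is one point `x` whose metric projections `p i` onto the sets `C i` are all strongly
exposed by the normal vectors `x - p i`. -/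
theorem result (H : Type*) [NormedAddCommGroup H] [InnerProductSpace ℝ H]
    (n : ℕ) (C : Fin n → Set H) (hne : ∀ i, (C i).Nonempty) (hc : ∀ i, IsCompact (C i)) :
    ∃ (x : H) (p : Fin n → H), ∀ i, IsProj (C i) x (p i) ∧
      StronglyExposed (C i) (p i) (innerSL ℝ (x - p i)) := by
  classical
  let Φ : (Fin n → H) → ℝ := fun y => 2 * ‖∑ j, y j‖ ^ 2 - ∑ j, ‖y j‖ ^ 2
  have hΦ : Continuous Φ := by
    unfold Φ
    fun_prop
  have hK : IsCompact (Set.pi Set.univ C) := isCompact_univ_pi hc
  have hKne : (Set.pi Set.univ C).Nonempty := Set.univ_pi_nonempty_iff.2 hne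
  obtain ⟨y, hy, hmax⟩ := hK.exists_isMaxOn hKne hΦ.continuousOn
  have hyC : ∀ i, y i ∈ C i := fun i => hy i (Set.mem_univ i)
  refine ⟨(2:ℝ) • ∑ j, y j, y, fun i => key (hyC i) ?_⟩
  intro z hz
  have hu : Function.update y i z ∈ Set.pi Set.univ C := by
    intro j _
    by_cases hj : j = i
    · subst hj; simpa using hz
    · simpa [Function.update_of_ne hj] using hyC j
  have h1 : Φ (Function.update y i z) ≤ Φ y := hmax hu
  set R : H := ∑ j ∈ Finset.univ.erase i, y j with hR
  set S : ℝ := ∑ j ∈ Finset.univ.erase i, ‖y j‖ ^ 2 with hS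
  have e1 : ∑ j, y j = y i + R := by
    rw [hR, Finset.add_sum_erase _ _ (Finset.mem_univ i)]
  have e2 : ∑ j, ‖y j‖ ^ 2 = ‖y i‖ ^ 2 + S := by
    rw [hS, Finset.add_sum_erase _ (fun j => ‖y j‖ ^ 2) (Finset.mem_univ i)]
  have e3 : ∑ j, Function.update y i z j = z + R := by
    rw [← Finset.add_sum_erase _ _ (Finset.mem_univ i), Function.update_self, hR]
    congr 1
    refine Finset.sum_congr rfl fun j hj => ?_
    rw [Function.update_of_ne (Finset.ne_of_mem_erase hj)]
  have e4 : ∑ j, ‖Function.update y i z j‖ ^ 2 = ‖z‖ ^ 2 + S := by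
    rw [← Finset.add_sum_erase _ _ (Finset.mem_univ i), Function.update_self, hS]
    congr 1
    refine Finset.sum_congr rfl fun j hj => ?_
    rw [Function.update_of_ne (Finset.ne_of_mem_erase hj)]
  have h2 : 2 * ‖z + R‖ ^ 2 - (‖z‖ ^ 2 + S) ≤ 2 * ‖y i + R‖ ^ 2 - (‖y i‖ ^ 2 + S) := by
    have := h1
    simp only [Φ] at this
    rwa [e1, e2, e3, e4] at this
  rw [norm_add_sq_real, norm_add_sq_real] at h2
  have e5 : (2:ℝ) • ∑ j, y j - y i = y i + (2:ℝ) • R := by
    rw [e1, smul_add, two_smul ℝ (y i)]; abel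
  rw [e5, norm_sub_sq_real, inner_add_left, inner_sub_right, inner_sub_right, inner_smul_left,
    inner_smul_left, real_inner_self_eq_norm_sq]
  simp only [conj_trivial]
  have c1 : ⟪R, z⟫ = ⟪z, R⟫ := real_inner_comm _ _
  have c2 : ⟪R, y i⟫ = ⟪y i, R⟫ := real_inner_comm _ _
  have c3 : ⟪z, y i⟫ = ⟪y i, z⟫ := real_inner_comm _ _
  rw [c1, c2, c3]
  linarith [h2]

end Pool.Agent.Results.MP_3684f0_an.CommonPoint
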